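import Pool.Agent.H95.ESP.Stmts

/-!
# Board `esp`, row QCN (helper62): the number of solutions of `x² + xy + y² = c`
-/

set_option autoImplicit false

namespace ESP
open Finset

private theorem qcn_ne {p : ℕ} [Fact p.Prime] (h5 : 5 ≤ p) (n : ℕ) (hn : 0 < n) (hn' : n < 5) :
    ((n : ℕ) : ZMod p) ≠ 0 := by
  intro h
  rw [ZMod.natCast_eq_zero_iff] at h
  have := Nat.le_of_dvd hn h
  omega

theorem qcn_thm : S_QCN := by
  intro p hp h5 c hc
  have h20 : (2 : ZMod p) ≠ 0 := by exact_mod_cast qcn_ne h5 2 (by omega) (by omega)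
  have h30 : (3 : ZMod p) ≠ 0 := by exact_mod_cast qcn_ne h5 3 (by omega) (by omega)
  -- a solution
  obtain ⟨u, v, huv⟩ : ∃ u v : ZMod p, u ^ 2 + u * v + v ^ 2 = c := by
    have hodd : Fintype.card (ZMod p) % 2 = 1 := by
      rw [ZMod.card]
      rcases hp.out.eq_two_or_odd with h | h
      · omega
      · exact h
    have hf : (Polynomial.X ^ 2 - Polynomial.C (4 * c) : Polynomial (ZMod p)).degree = 2 := by
      exact Polynomial.degree_X_pow_sub_C (by omega) _
    have hg : (Polynomial.C 3 * Polynomial.X ^ 2 : Polynomial (ZMod p)).degree = 2 := by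
      exact Polynomial.degree_C_mul_X_pow 2 h30
    obtain ⟨a, b, hab⟩ := FiniteField.exists_root_sum_quadratic hf hg hodd
    simp only [Polynomial.eval_sub, Polynomial.eval_pow, Polynomial.eval_X, Polynomial.eval_C,
      Polynomial.eval_mul] at hab
    refine ⟨(a - b) / 2, b, ?_⟩
    field_simp
    linear_combination hab
  set S := univ.filter (fun v : ZMod p × ZMod p => v.1 ^ 2 + v.1 * v.2 + v.2 ^ 2 = c) with hS
  set T1 := univ.filter (fun t : ZMod p => 1 + t + t ^ 2 = 0) with hT1
  set T2 := univ.filter (fun t : ZMod p => (2 * u + v) + t * (u + 2 * v) = 0) with hT2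
  have hc1 : T1.card ≤ 2 := by
    by_cases h : ∃ t₁ : ZMod p, 1 + t₁ + t₁ ^ 2 = 0
    · obtain ⟨t₁, ht₁⟩ := h
      have h1 : T1 ⊆ {t₁, -1 - t₁} := by
        intro t ht
        rw [hT1, mem_filter] at ht
        have h2 : (t - t₁) * (t + t₁ + 1) = 0 := by linear_combination ht.2 - ht₁
        rw [mem_insert, mem_singleton]
        rcases mul_eq_zero.1 h2 with h3 | h3
        · exact Or.inl (sub_eq_zero.1 h3)
        · right
          linear_combination h3
      exact (card_le_card h1).trans card_le_two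
    · have h1 : T1 = ∅ := by
        rw [hT1, filter_eq_empty_iff]
        intro t _ ht
        exact h ⟨t, ht⟩
      rw [h1, card_empty]
      omega
  have hc2 : T2.card ≤ 1 := by
    rw [card_le_one]
    intro t ht t' ht'
    rw [hT2, mem_filter] at ht ht'
    have h1 : (t - t') * (u + 2 * v) = 0 := by linear_combination ht.2 - ht'.2
    rcases mul_eq_zero.1 h1 with h2 | h2
    · exact sub_eq_zero.1 h2
    · exfalso
      have h3 : 2 * u + v = 0 := by
        have := ht.2
        rw [h2, mul_zero, add_zero] at this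
        exact this
      have h4 : 3 * u = 0 := by linear_combination 2 * h3 - h2
      have hu : u = 0 := (mul_eq_zero.1 h4).resolve_left h30
      rw [hu, mul_zero, zero_add] at h3
      apply hc
      rw [← huv, hu, h3]
      ring
  have hcard : (univ \ (T1 ∪ T2)).card ≤ (S.erase (u, v)).card := by
    refine card_le_card_of_injOn
      (fun t => (u - ((2 * u + v) + t * (u + 2 * v)) / (1 + t + t ^ 2),
        v - t * (((2 * u + v) + t * (u + 2 * v)) / (1 + t + t ^ 2)))) ?_ ?_
    · intro t ht
      have ht' := (mem_sdiff.1 (mem_coe.1 ht)).2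
      rw [mem_union, not_or, hT1, hT2, mem_filter, mem_filter, not_and, not_and] at ht'
      have hq : 1 + t + t ^ 2 ≠ 0 := ht'.1 (mem_univ _)
      have hB : (2 * u + v) + t * (u + 2 * v) ≠ 0 := ht'.2 (mem_univ _)
      rw [mem_coe, mem_erase, hS, mem_filter]
      refine ⟨?_, mem_univ _, ?_⟩
      · intro h
        have h1 := congrArg Prod.fst h
        have h2 : u - ((2 * u + v) + t * (u + 2 * v)) / (1 + t + t ^ 2) = u := h1
        have h3 : ((2 * u + v) + t * (u + 2 * v)) / (1 + t + t ^ 2) = 0 := by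
          linear_combination -h2
        exact (div_ne_zero hB hq) h3
      · obtain ⟨s, hs⟩ : ∃ s, s = ((2 * u + v) + t * (u + 2 * v)) / (1 + t + t ^ 2) := ⟨_, rfl⟩
        have hs' : s * (1 + t + t ^ 2) = (2 * u + v) + t * (u + 2 * v) := by
          rw [hs, div_mul_cancel₀ _ hq]
        show (u - ((2 * u + v) + t * (u + 2 * v)) / (1 + t + t ^ 2)) ^ 2 +
          (u - ((2 * u + v) + t * (u + 2 * v)) / (1 + t + t ^ 2)) *
          (v - t * (((2 * u + v) + t * (u + 2 * v)) / (1 + t + t ^ 2))) +
          (v - t * (((2 * u + v) + t * (u + 2 * v)) / (1 + t + t ^ 2))) ^ 2 = c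
        rw [← hs]
        linear_combination huv + s * hs'
    · intro t ht t' ht' h
      have ht1 := (mem_sdiff.1 (mem_coe.1 ht)).2
      rw [mem_union, not_or, hT1, hT2, mem_filter, mem_filter, not_and, not_and] at ht1
      have hq : 1 + t + t ^ 2 ≠ 0 := ht1.1 (mem_univ _)
      have hB : (2 * u + v) + t * (u + 2 * v) ≠ 0 := ht1.2 (mem_univ _)
      have h1 : u - ((2 * u + v) + t * (u + 2 * v)) / (1 + t + t ^ 2) =
          u - ((2 * u + v) + t' * (u + 2 * v)) / (1 + t' + t' ^ 2) := congrArg Prod.fst h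
      have h2 : v - t * (((2 * u + v) + t * (u + 2 * v)) / (1 + t + t ^ 2)) =
          v - t' * (((2 * u + v) + t' * (u + 2 * v)) / (1 + t' + t' ^ 2)) :=
        congrArg Prod.snd h
      have h3 : ((2 * u + v) + t * (u + 2 * v)) / (1 + t + t ^ 2) =
          ((2 * u + v) + t' * (u + 2 * v)) / (1 + t' + t' ^ 2) := by linear_combination -h1
      rw [← h3] at h2
      have h4 : (t - t') * (((2 * u + v) + t * (u + 2 * v)) / (1 + t + t ^ 2)) = 0 := by
        linear_combination -h2
      exact sub_eq_zero.1 ((mul_eq_zero.1 h4).resolve_right (div_ne_zero hB hq))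
  have hmem : (u, v) ∈ S := by
    rw [hS, mem_filter]
    exact ⟨mem_univ _, huv⟩
  rw [card_erase_of_mem hmem, card_sdiff_of_subset (subset_univ _), card_univ, ZMod.card] at hcard
  have h7 := card_union_le T1 T2
  have h8 : 0 < S.card := card_pos.2 ⟨_, hmem⟩
  omega

end ESP
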